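import Pool.Agent.Work.MP_058057_co.Bridge

/-! The conjecture fails at `k = 1`, `n = 7`: `Q_0(7) = Q_0(6) = 3` and `xi_7 = 0`. -/

namespace Pool.Agent.Work.MP_058057_co.Disproof

open Pool.Agent.Work.MP_058057_co

theorem Q0_six : Q0 6 = 3 := by
  rw [Q0_eq_card 6 8 (by decide)]
  decide +kernel

theorem Q0_seven : Q0 7 = 3 := by
  rw [Q0_eq_card 7 8 (by decide)]
  decide +kernel

theorem S_one_seven : S 1 7 - xi 7 = 0 := by
  have h1 : xi 7 = 0 := by decide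
  have h2 : S 1 7 = (Q0 7 : ℤ) - (Q0 6 : ℤ) := by
    simp [S, Q0Z, Finset.sum_range_succ, sub_eq_add_neg]
  rw [h1, h2, Q0_six, Q0_seven]
  rfl

theorem result :
    ¬ ∀ n k : ℕ, 1 ≤ k →
      0 ≤ (-1 : ℤ) ^ (k - 1) * (S k n - xi n) ∧
        (0 < (-1 : ℤ) ^ (k - 1) * (S k n - xi n) ↔ k * (2 * k + 1) ≤ n) := by
  intro h
  have h7 := (h 7 1 le_rfl).2.2 (by decide)
  rw [S_one_seven] at h7
  simp at h7

end Pool.Agent.Work.MP_058057_co.Disproof
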