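import Pool.Agent.Work.MP_058057_co.Products
import Mathlib.Topology.Algebra.InfiniteSum.NatInt
import Mathlib.Topology.Algebra.InfiniteSum.Order
import Mathlib.Topology.Algebra.InfiniteSum.Ring
import Mathlib.Topology.Instances.Int

/-! Coefficients on the integers and the bilateral expansions of `Q0`. -/

namespace Pool.Agent.Work.MP_058057_co

open Finset PowerSeries

/-- Coefficient at an integer index, zero on negative indices. -/
noncomputable def cf (F : ℤ⟦X⟧) (m : ℤ) : ℤ := if 0 ≤ m then coeff m.toNat F else 0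

theorem cf_nat (F : ℤ⟦X⟧) (n : ℕ) : cf F n = coeff n F := by simp [cf]

theorem cf_neg (F : ℤ⟦X⟧) {m : ℤ} (h : m < 0) : cf F m = 0 := if_neg (by omega)

theorem cf_add (F G : ℤ⟦X⟧) (m : ℤ) : cf (F + G) m = cf F m + cf G m := by
  unfold cf
  split_ifs <;> simp

theorem cf_sub (F G : ℤ⟦X⟧) (m : ℤ) : cf (F - G) m = cf F m - cf G m := by
  unfold cf
  split_ifs <;> simp

theorem cf_neg' (F : ℤ⟦X⟧) (m : ℤ) : cf (-F) m = -cf F m := by
  unfold cf
  split_ifs <;> simp

theorem cf_two_mul (F : ℤ⟦X⟧) (m : ℤ) : cf (2 * F) m = 2 * cf F m := by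
  rw [two_mul, cf_add, two_mul]

theorem cf_sum (T : Finset ℕ) (F : ℕ → ℤ⟦X⟧) (m : ℤ) :
    cf (∑ i ∈ T, F i) m = ∑ i ∈ T, cf (F i) m := by
  unfold cf
  split_ifs <;> simp

theorem cf_X_pow_mul (F : ℤ⟦X⟧) (s : ℕ) (m : ℤ) : cf (X ^ s * F) m = cf F (m - s) := by
  by_cases h : 0 ≤ m
  · obtain ⟨n, rfl⟩ := Int.eq_ofNat_of_zero_le h
    rw [cf_nat, coeff_X_pow_mul']
    split_ifs with h1
    · rw [← cf_nat, Nat.cast_sub h1]
    · rw [cf_neg _ (by omega)]
  · rw [cf_neg _ (by omega), cf_neg _ (by omega)]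

theorem NN.cf_nonneg {F : ℤ⟦X⟧} (h : NN F) (m : ℤ) : 0 ≤ cf F m := by
  unfold cf
  split_ifs
  · exact h _
  · exact le_rfl

theorem cf_one (m : ℤ) : cf 1 m = if m = 0 then 1 else 0 := by
  unfold cf
  rw [coeff_one]
  split_ifs <;> first | rfl | omega

theorem cf_expand_even (F : ℤ⟦X⟧) (m : ℤ) :
    cf (PowerSeries.expand 2 two_ne_zero F) (2 * m) = cf F m := by
  by_cases h : 0 ≤ m
  · obtain ⟨n, rfl⟩ := Int.eq_ofNat_of_zero_le h
    rw [show (2 : ℤ) * n = ((2 * n : ℕ) : ℤ) by push_cast; ring, cf_nat, cf_nat, coeff_expand_mul]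
  · rw [cf_neg _ (by omega), cf_neg _ (by omega)]

theorem cf_expand_odd (F : ℤ⟦X⟧) (m : ℤ) :
    cf (PowerSeries.expand 2 two_ne_zero F) (2 * m + 1) = 0 := by
  by_cases h : 0 ≤ m
  · obtain ⟨n, rfl⟩ := Int.eq_ofNat_of_zero_le h
    rw [show (2 : ℤ) * n + 1 = ((2 * n + 1 : ℕ) : ℤ) by push_cast; ring, cf_nat,
      coeff_expand_of_not_dvd _ _ _ (by omega)]
  · rw [cf_neg _ (by omega)]

theorem sumZ {f : ℤ → ℤ} (B : ℤ) (h : ∀ v, B < |v| → f v = 0) : Summable f := by
  apply summable_of_ne_finset_zero (s := Icc (-B) B)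
  intro v hv
  apply h
  rw [mem_Icc, ← abs_le] at hv
  exact not_le.mp hv

theorem sumN {f : ℕ → ℤ} (B : ℕ) (h : ∀ v, B < v → f v = 0) : Summable f := by
  apply summable_of_ne_finset_zero (s := range (B + 1))
  intro v hv
  apply h
  rw [mem_range] at hv
  omega

/-- The exponents `2 u ^ 2 + u`, `u ∈ ℤ`, run through the triangular numbers. -/
def e (u : ℤ) : ℤ := 2 * u ^ 2 + u

theorem abs_le_e (u : ℤ) : |u| ≤ e u := by
  unfold e
  rcases le_or_gt 0 u with h | h
  · rw [abs_of_nonneg h]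
    nlinarith
  · rw [abs_of_neg h]
    nlinarith

theorem e_nonneg (u : ℤ) : 0 ≤ e u := (abs_nonneg u).trans (abs_le_e u)

theorem abs_le_two_sq (v : ℤ) : |v| ≤ 2 * v ^ 2 := by
  rcases le_or_gt 0 v with h | h
  · rw [abs_of_nonneg h]
    rcases eq_or_lt_of_le h with rfl | h
    · simp
    · nlinarith
  · rw [abs_of_neg h]
    nlinarith

theorem y_nonneg (v : ℤ) : 0 ≤ 2 * v * (v + 1) := by
  rcases le_or_gt 0 v with h | h <;> nlinarith

theorem Q_tsum (n : ℤ) :
    cf Qs n = ∑' a : ℤ, cf (PowerSeries.expand 2 two_ne_zero Pd) (n - e a) := by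
  by_cases h : 0 ≤ n
  · obtain ⟨m, rfl⟩ := Int.eq_ofNat_of_zero_le h
    have hs : Summable fun a : ℤ => cf (PowerSeries.expand 2 two_ne_zero Pd) (m - e a) :=
      sumZ m fun v hv => cf_neg _ (by have := abs_le_e v; omega)
    rw [← tsum_nat_add_neg_add_one hs, tsum_eq_sum (s := range (m + 1)), cf_nat,
      (Qs_cong_psi (m + 1)).coeff_eq (Nat.lt_succ_self m), ← cf_nat, psi, sum_mul, cf_sum]
    · apply Finset.sum_congr rfl
      intro i _
      rw [add_mul, cf_add, cf_X_pow_mul, cf_X_pow_mul]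
      congr 2 <;> (unfold e; push_cast; ring)
    · intro b hb
      rw [mem_range] at hb
      have h1 := abs_le_e b
      have h2 := abs_le_e (-(b + 1))
      rw [abs_of_nonneg (by omega)] at h1
      rw [abs_neg, abs_of_nonneg (by omega)] at h2
      rw [cf_neg _ (by omega), cf_neg _ (by omega), add_zero]
  · rw [cf_neg _ (by omega)]
    symm
    rw [← tsum_zero (β := ℤ)]
    apply tsum_congr
    intro a
    exact cf_neg _ (by have := e_nonneg a; omega)

theorem Q_even (N b : ℤ) :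
    cf Qs (2 * N - e b) = ∑' v : ℤ, cf Pd (N - 2 * v ^ 2 - e (b + v)) := by
  rw [Q_tsum, ← Function.Injective.tsum_eq (g := fun v : ℤ => b + 2 * v)]
  · apply tsum_congr
    intro v
    rw [← cf_expand_even Pd]
    congr 1
    unfold e
    ring
  · intro v w h
    simp only at h
    omega
  · intro a ha
    rcases Int.even_or_odd' (a - b) with ⟨v, hv | hv⟩
    · exact ⟨v, by simp only; omega⟩
    · exfalso
      apply ha
      have : a = b + 2 * v + 1 := by omega
      subst this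
      simp only
      rw [← cf_expand_odd Pd (N - 1 - (2 * (b + v) ^ 2 + 3 * (b + v) + 2 * v ^ 2 + 2 * v + 1))]
      congr 1
      unfold e
      ring

theorem Q_odd (N b : ℤ) :
    cf Qs (2 * N + 1 - e b) = ∑' w : ℤ, cf Pd (N - 2 * (w + b) * (w + b + 1) - e w) := by
  rw [Q_tsum, ← Function.Injective.tsum_eq (g := fun w : ℤ => -b - 2 * w - 1)]
  · apply tsum_congr
    intro v
    rw [← cf_expand_even Pd]
    congr 1
    unfold e
    ring
  · intro v w h
    simp only at h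
    omega
  · intro a ha
    rcases Int.even_or_odd' (-a - b) with ⟨v, hv | hv⟩
    · exfalso
      apply ha
      have : a = -b - 2 * v := by omega
      subst this
      simp only
      rw [← cf_expand_odd Pd (N - (2 * b ^ 2 + 4 * b * v + 4 * v ^ 2 - v))]
      congr 1
      unfold e
      ring
    · exact ⟨v, by simp only; omega⟩

/-- The series of `xi`. -/
noncomputable def Xi : ℤ⟦X⟧ := PowerSeries.mk xi

/-- The series of `(-1)^k (xi - S k)`. -/
noncomputable def A (k : ℕ) : ℤ⟦X⟧ := (-1) ^ k * (Xi - Qs * Sig k)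

/-- The analogous series for pod. -/
noncomputable def P (k : ℕ) : ℤ⟦X⟧ := (-1) ^ k * (1 - Pd * Sig k)

theorem rec_aux (F G : ℤ⟦X⟧) (k : ℕ) (n : ℤ) :
    cf ((-1) ^ (k + 1) * (F - G * Sig (k + 1))) n =
      -cf ((-1) ^ k * (F - G * Sig k)) n + cf G (n - e k) - cf G (n - e (-k - 1)) := by
  have h1 : ((-1 : ℤ⟦X⟧) ^ k) * (-1) ^ k = 1 := by
    rw [← mul_pow]
    simp
  have : (-1) ^ (k + 1) * (F - G * Sig (k + 1)) = -((-1) ^ k * (F - G * Sig k)) +
      X ^ (k * (2 * k + 1)) * G - X ^ ((k + 1) * (2 * k + 1)) * G := by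
    rw [Sig, sum_range_succ, ← Sig]
    linear_combination (G * (X ^ (k * (2 * k + 1)) - X ^ ((k + 1) * (2 * k + 1)))) * h1
  rw [this, cf_sub, cf_add, cf_neg', cf_X_pow_mul, cf_X_pow_mul]
  congr 2
  · congr 2
    unfold e
    push_cast
    ring
  · congr 1
    unfold e
    push_cast
    ring

theorem A_succ (k : ℕ) (n : ℤ) :
    cf (A (k + 1)) n = -cf (A k) n + cf Qs (n - e k) - cf Qs (n - e (-k - 1)) :=
  rec_aux _ _ k n

theorem P_succ (k : ℕ) (n : ℤ) :
    cf (P (k + 1)) n = -cf (P k) n + cf Pd (n - e k) - cf Pd (n - e (-k - 1)) :=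
  rec_aux _ _ k n

theorem A_zero : A 0 = Xi := by simp [A, Sig]

theorem P_zero : P 0 = 1 := by simp [P, Sig]

theorem Q0Z_eq (m : ℤ) : Q0Z m = cf Qs m := by
  unfold Q0Z cf Qs
  rw [coeff_mk]

theorem A_eq (k n : ℕ) : cf (A k) n = (-1) ^ k * (xi n - S k n) := by
  induction k with
  | zero => simp [A_zero, cf_nat, Xi, S]
  | succ k ih =>
    have e1 : 2 * k * (2 * k + 1) / 2 = k * (2 * k + 1) := by
      rw [mul_assoc, Nat.mul_div_cancel_left _ (by norm_num)]
    have e2 : (2 * k + 1) * (2 * k + 1 + 1) / 2 = (k + 1) * (2 * k + 1) := by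
      rw [show (2 * k + 1) * (2 * k + 1 + 1) = 2 * ((k + 1) * (2 * k + 1)) by ring,
        Nat.mul_div_cancel_left _ (by norm_num)]
    have s1 : (-1 : ℤ) ^ (k * (2 * k + 1)) = (-1) ^ k := by
      rw [mul_comm, pow_mul, Odd.neg_one_pow ⟨k, rfl⟩]
    have s2 : (-1 : ℤ) ^ ((k + 1) * (2 * k + 1)) = (-1) ^ (k + 1) := by
      rw [mul_comm, pow_mul, Odd.neg_one_pow ⟨k, rfl⟩]
    have h1 : ((-1 : ℤ) ^ k) * (-1) ^ k = 1 := by
      rw [← mul_pow]
      simp
    have a1 : (n : ℤ) - e k = n - ((k * (2 * k + 1) : ℕ) : ℤ) := by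
      unfold e
      push_cast
      ring
    have a2 : (n : ℤ) - e (-k - 1) = n - (((k + 1) * (2 * k + 1) : ℕ) : ℤ) := by
      unfold e
      push_cast
      ring
    rw [A_succ, ih, S, S, show 2 * (k + 1) = 2 * k + 1 + 1 by ring, sum_range_succ, sum_range_succ,
      e1, e2, s1, s2, a1, a2, ← Q0Z_eq, ← Q0Z_eq]
    linear_combination (-(Q0Z (n - ((k * (2 * k + 1) : ℕ) : ℤ)) -
      Q0Z (n - (((k + 1) * (2 * k + 1) : ℕ) : ℤ)))) * h1

theorem Sig_cong {c M : ℕ} (h : c ≤ M) : Cong (c * (2 * c + 1)) (Sig M) (Sig c) := by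
  induction M, h using Nat.le_induction with
  | base => exact Cong.refl _ _
  | succ k hk ih =>
    refine Cong.trans ?_ ih
    unfold Cong
    rw [Sig, sum_range_succ, ← Sig, add_sub_cancel_left]
    apply Dvd.dvd.mul_left
    apply dvd_sub <;> apply pow_dvd_pow <;> nlinarith

theorem P_vanish (c : ℕ) {m : ℤ} (h : m < e c) : cf (P c) m = 0 := by
  by_cases h0 : 0 ≤ m
  · obtain ⟨n, rfl⟩ := Int.eq_ofNat_of_zero_le h0
    have h1 : Cong (c * (2 * c + 1)) 1 (Pd * Sig c) :=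
      ((Pd_mul_Sig (c * (2 * c + 1) + c)).mono (by omega)).symm.trans
        ((Sig_cong (by omega)).mul_left _)
    have h2 : X ^ (c * (2 * c + 1)) ∣ P c := Dvd.dvd.mul_left h1 _
    rw [cf_nat]
    apply X_pow_dvd_iff.mp h2
    unfold e at h
    zify
    linarith
  · exact cf_neg _ (by omega)

end Pool.Agent.Work.MP_058057_co
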