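import Pool.Agent.Work.MP_058057_co.Defs

/-! `Q0 n` counts finite sets of non-multiples of 4 with sum `n`. -/

namespace Pool.Agent.Work.MP_058057_co

open Finset

theorem Q0_eq_card (n N : ℕ) (hN : n < N) :
    Q0 n = (((range N).filter (fun i => ¬ 4 ∣ i)).powerset.filter
      (fun s => ∑ i ∈ s, i = n)).card := by
  unfold Q0
  refine Finset.card_bij (fun p _ => p.parts.toFinset) ?_ ?_ ?_
  · intro p hp
    simp only [Nat.Partition.distincts, mem_filter, mem_univ, true_and] at hp
    simp only [mem_filter, mem_powerset]
    refine ⟨?_, ?_⟩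
    · intro i hi
      rw [Multiset.mem_toFinset] at hi
      simp only [mem_filter, mem_range]
      exact ⟨lt_of_le_of_lt (Nat.Partition.le_of_mem_parts hi) hN, hp.2 i hi⟩
    · have h1 : (p.parts.toFinset).val = p.parts := by
        rw [Multiset.toFinset_val, hp.1.dedup]
      have h2 : ∑ i ∈ p.parts.toFinset, i = (p.parts.toFinset).val.sum := by
        simp [Finset.sum]
      rw [h2, h1, p.parts_sum]
  · intro p hp q hq h
    simp only [Nat.Partition.distincts, mem_filter, mem_univ, true_and] at hp hq
    apply Nat.Partition.ext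
    have h1 := congrArg Finset.val h
    simpa [Multiset.toFinset_val, hp.1.dedup, hq.1.dedup] using h1
  · intro s hs
    simp only [mem_filter, mem_powerset] at hs
    have hpos : ∀ i ∈ s, ¬ 4 ∣ i := fun i hi => (mem_filter.mp (hs.1 hi)).2
    refine ⟨⟨s.val, ?_, ?_⟩, ?_, ?_⟩
    · intro i hi
      rcases Nat.eq_zero_or_pos i with rfl | h
      · exact absurd (dvd_zero 4) (hpos 0 hi)
      · exact h
    · simpa using hs.2
    · simp only [Nat.Partition.distincts, mem_filter, mem_univ, true_and]
      exact ⟨s.nodup, hpos⟩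
    · simp

end Pool.Agent.Work.MP_058057_co
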