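import Mathlib.Combinatorics.Enumerative.Partition.Basic
import Mathlib.Algebra.BigOperators.Ring.Finset

/-! Definitions for MP_058057_co (truncated triangular-number inequalities for Q_0). -/

namespace Pool.Agent.Work.MP_058057_co

/-- `Q0 n`: the number of partitions of `n` into distinct parts, no part divisible by 4. -/
def Q0 (n : ℕ) : ℕ :=
  ((Nat.Partition.distincts n).filter (fun p => ∀ i ∈ p.parts, ¬ 4 ∣ i)).card

/-- `Q0` extended to the integers by `0` on negative arguments. -/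
def Q0Z (m : ℤ) : ℤ := if 0 ≤ m then (Q0 m.toNat : ℤ) else 0

/-- `xi n` is `1` if `n = 0`, is `2 (-1)^m` if `n = 4 m^2` with `m ≥ 1`, and is `0` otherwise
(at most one `m ≤ n` has `n = 4 m^2`). -/
def xi (n : ℕ) : ℤ :=
  ∑ m ∈ Finset.range (n + 1), if n = 4 * m ^ 2 then (if m = 0 then 1 else 2 * (-1) ^ m) else 0

/-- `S k n = ∑_{j=0}^{2k-1} (-1)^{j(j+1)/2} Q_0(n - j(j+1)/2)`. -/
def S (k n : ℕ) : ℤ :=
  ∑ j ∈ Finset.range (2 * k), (-1) ^ (j * (j + 1) / 2) * Q0Z ((n : ℤ) - ((j * (j + 1) / 2 : ℕ) : ℤ))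

end Pool.Agent.Work.MP_058057_co
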