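import Pool.Agent.Work.MP_058057_co.Odd

/-! The even coefficients of `A k`, and the main induction. -/

namespace Pool.Agent.Work.MP_058057_co

open Finset PowerSeries

/-- `P c` extended to integer `c`. -/
noncomputable def pZ (c M : ℤ) : ℤ :=
  if 0 ≤ c then cf (P c.natAbs) M else 2 * (-1) ^ c.natAbs * cf 1 M - cf (P c.natAbs) M

theorem pZ_nat (c : ℕ) (M : ℤ) : pZ c M = cf (P c) M := by simp [pZ]

theorem pZ_neg (c : ℕ) (M : ℤ) : pZ (-c) M = 2 * (-1) ^ c * cf 1 M - cf (P c) M := by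
  rcases Nat.eq_zero_or_pos c with rfl | h
  · simp only [Nat.cast_zero, neg_zero, pow_zero, P_zero]
    rw [← Nat.cast_zero, pZ_nat, P_zero]
    ring
  · unfold pZ
    rw [if_neg (by omega)]
    simp

theorem pZ_at_zero (M : ℤ) : pZ 0 M = cf 1 M := by simp [pZ, P_zero]

theorem pZ_succ (c M : ℤ) :
    pZ (c + 1) M = -pZ c M + cf Pd (M - e c) - cf Pd (M - e (-c - 1)) := by
  rcases le_or_gt 0 c with h | h
  · obtain ⟨n, rfl⟩ := Int.eq_ofNat_of_zero_le h
    rw [← Nat.cast_succ, pZ_nat, pZ_nat, P_succ]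
  · obtain ⟨n, rfl⟩ : ∃ n : ℕ, c = -((n + 1 : ℕ) : ℤ) := ⟨(-c - 1).toNat, by omega⟩
    rw [show -((n + 1 : ℕ) : ℤ) + 1 = -n by push_cast; ring, pZ_neg, pZ_neg, P_succ,
      show - -((n + 1 : ℕ) : ℤ) - 1 = n by push_cast; ring,
      show -((n + 1 : ℕ) : ℤ) = -n - 1 by push_cast; ring]
    ring

theorem pZ_zero (c : ℤ) {M : ℤ} (h : M < 0) : pZ c M = 0 := by
  unfold pZ
  rw [cf_neg _ h, cf_neg _ h]
  simp

theorem A_even_tsum (N k : ℕ) : cf (A k) (2 * N) = ∑' v : ℤ, pZ (k + v) (N - 2 * v ^ 2) := by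
  have s1 : ∀ k : ℤ, Summable fun v : ℤ => pZ (k + v) (N - 2 * v ^ 2) := fun k =>
    sumZ N fun v hv => pZ_zero _ (by have := abs_le_two_sq v; omega)
  induction k with
  | zero =>
    have h := tsum_nat_add_neg (s1 0)
    simp only [zero_add, neg_sq, pZ_nat, pZ_neg, add_sub_cancel] at h
    rw [tsum_eq_sum (s := range (2 * N + 1)), sum_range_succ', pZ_at_zero] at h
    · rw [A_zero, show (2 * N : ℤ) = ((2 * N : ℕ) : ℤ) by push_cast; ring, cf_nat, Xi,
        coeff_mk, xi, sum_range_succ']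
      simp only [Nat.cast_zero, zero_add]
      have e1 : ∑ m ∈ range (2 * N), (if 2 * N = 4 * (m + 1) ^ 2 then
          (if m + 1 = 0 then (1 : ℤ) else 2 * (-1) ^ (m + 1)) else 0) =
          ∑ m ∈ range (2 * N), 2 * (-1) ^ (m + 1) * cf 1 (N - 2 * ((m + 1 : ℕ) : ℤ) ^ 2) := by
        apply Finset.sum_congr rfl
        intro m _
        rw [cf_one, if_neg (Nat.succ_ne_zero m)]
        by_cases h : 2 * N = 4 * (m + 1) ^ 2
        · rw [if_pos h, if_pos, mul_one]
          zify at h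
          push_cast
          linarith
        · rw [if_neg h, if_neg, mul_zero]
          intro h'
          apply h
          zify
          push_cast at h'
          linarith
      rw [e1]
      simp only [cf_one, Nat.cast_zero] at h ⊢
      by_cases h0 : N = 0
      · simp [h0] at h ⊢
        linarith
      · simp [h0] at h ⊢
        linarith
    · intro b hb
      rw [mem_range] at hb
      rw [cf_neg, mul_zero]
      have : (2 * N + 1 : ℤ) ≤ b := by omega
      nlinarith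
  | succ k ih =>
    have s2 : Summable fun v : ℤ => cf Pd (N - 2 * v ^ 2 - e (k + v)) :=
      sumZ N fun v hv => cf_neg _ (by have := abs_le_two_sq v; have := e_nonneg (k + v); omega)
    have s3 : Summable fun v : ℤ => cf Pd (N - 2 * v ^ 2 - e (-(k + v) - 1)) :=
      sumZ N fun v hv => cf_neg _
        (by have := abs_le_two_sq v; have := e_nonneg (-(k + v) - 1); omega)
    have e1 : ∀ v : ℤ, ((k + 1 : ℕ) : ℤ) + v = k + v + 1 := fun v => by push_cast; ring
    rw [A_succ, ih, Q_even, Q_even]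
    simp only [e1, pZ_succ]
    rw [((s1 k).neg.add s2).tsum_sub s3, (s1 k).neg.tsum_add s2, tsum_neg]
    congr 1
    rw [← tsum_comp_neg]
    apply tsum_congr
    intro w
    congr 2
    · ring
    · congr 1
      ring

/-- The main terms. -/
noncomputable def gT (N : ℤ) (k c : ℕ) : ℤ :=
  cf (P c) (N - 2 * (c - k) ^ 2) - cf (P c) (N - 2 * (c + k) ^ 2)

/-- The correction terms. -/
noncomputable def dT (N : ℤ) (k c : ℕ) : ℤ := 2 * (-1) ^ c * cf 1 (N - 2 * (c + k) ^ 2)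

theorem gT_summable (N k : ℕ) : Summable fun c : ℕ => gT N k c := by
  apply sumN (N + k)
  intro c hc
  have h1 := abs_le_two_sq ((c : ℤ) - k)
  have h2 := abs_le_two_sq ((c : ℤ) + k)
  rw [abs_of_nonneg (by omega)] at h1 h2
  rw [gT, cf_neg _ (by omega), cf_neg _ (by omega), sub_zero]

theorem dT_summable (N k : ℕ) : Summable fun c : ℕ => dT N k c := by
  apply sumN N
  intro c hc
  have h2 := abs_le_two_sq ((c : ℤ) + k)
  rw [abs_of_nonneg (by omega)] at h2
  rw [dT, cf_neg _ (by omega), mul_zero]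

theorem A_even (N k : ℕ) : cf (A k) (2 * N) =
    ∑' c : ℕ, gT N k c + ∑' c : ℕ, dT N k c - cf 1 (N - 2 * k ^ 2) := by
  have s1 : Summable fun c : ℤ => pZ c (N - 2 * (c - k) ^ 2) :=
    sumZ (N + k) fun v hv => pZ_zero _ (by
      have := abs_le_two_sq (v - k)
      have := abs_sub_abs_le_abs_sub v k
      rw [Nat.abs_cast] at this
      omega)
  have h := tsum_nat_add_neg s1
  have e1 : ∀ c : ℕ, pZ c (N - 2 * (c - k) ^ 2) + pZ (-c) (N - 2 * (-c - k) ^ 2) =
      gT N k c + dT N k c := by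
    intro c
    rw [pZ_nat, pZ_neg, gT, dT, show (-(c : ℤ) - k) ^ 2 = (c + k) ^ 2 by ring]
    ring
  simp only [e1] at h
  rw [(gT_summable N k).tsum_add (dT_summable N k), pZ_at_zero] at h
  rw [h, A_even_tsum,
    ← (Equiv.addLeft (k : ℤ)).tsum_eq fun c : ℤ => pZ c (N - 2 * (c - k) ^ 2)]
  simp

theorem A_even_vanish (N k : ℕ) (h : 2 * N < e k) : cf (A k) (2 * N) = 0 := by
  have h1 : ∀ c : ℕ, gT N k c = 0 := by
    intro c
    have := e_nonneg (2 * (c : ℤ) - k)
    have hc : (0 : ℤ) ≤ c * k := by positivity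
    rw [gT, P_vanish, P_vanish, sub_zero] <;> unfold e at * <;> nlinarith
  have h3 : (N : ℤ) < 2 * k ^ 2 := by
    have := abs_le_two_sq k
    rw [Nat.abs_cast] at this
    unfold e at h
    omega
  have h2 : ∀ c : ℕ, dT N k c = 0 := by
    intro c
    have hc : (0 : ℤ) ≤ c * k := by positivity
    rw [dT, cf_neg, mul_zero]
    nlinarith
  rw [A_even, cf_neg _ (by omega)]
  simp [h1, h2]

theorem A_vanish (k : ℕ) {n : ℤ} (h : n < e k) : cf (A k) n = 0 := by
  by_cases h0 : 0 ≤ n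
  · obtain ⟨m, rfl⟩ := Int.eq_ofNat_of_zero_le h0
    rcases Nat.even_or_odd' m with ⟨N, rfl | rfl⟩
    · push_cast at h ⊢
      exact A_even_vanish N k h
    · push_cast at h ⊢
      exact A_odd_vanish N k h
  · exact cf_neg _ (by omega)

theorem Xi_mul_W : Xi * W = 1 := by
  apply eq_of_cong
  intro M
  have h1 : X ^ M ∣ A M := by
    apply X_pow_dvd_iff.mpr
    intro n hn
    rw [← cf_nat]
    apply A_vanish
    have := abs_le_e M
    rw [Nat.abs_cast] at this
    omega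
  have h2 : Cong M Xi (Qs * Sig M) := by
    have h3 : ((-1 : ℤ⟦X⟧) ^ M) * (-1) ^ M = 1 := by
      rw [← mul_pow]
      simp
    have := h1.mul_left ((-1) ^ M)
    rwa [A, ← mul_assoc, h3, one_mul] at this
  refine (h2.mul_right W).trans (Cong.trans (Cong.of_eq ?_) (Pd_mul_Sig M))
  rw [Pd_eq]
  ring

theorem P_eq (c : ℕ) : P c = A c * W := by
  rw [P, A, Pd_eq, ← Xi_mul_W]
  ring

theorem cf_mul_nonneg {F G : ℤ⟦X⟧} {M : ℤ} (hF : ∀ m, m ≤ M → 0 ≤ cf F m) (hG : NN G) :
    0 ≤ cf (F * G) M := by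
  by_cases h0 : 0 ≤ M
  · obtain ⟨n, rfl⟩ := Int.eq_ofNat_of_zero_le h0
    rw [cf_nat, coeff_mul]
    apply sum_nonneg
    intro p hp
    have := mem_antidiagonal.mp hp
    refine mul_nonneg ?_ (hG _)
    rw [← cf_nat]
    exact hF _ (by omega)
  · rw [cf_neg _ (by omega)]

theorem gT_ge (N : ℤ) {k c : ℕ} (hk : 1 ≤ k) (hc : 1 ≤ c) (hA : ∀ m, m ≤ N → 0 ≤ cf (A c) m) :
    cf (A c) (N - 2 * (c - k) ^ 2) + 2 * cf (A c) (N - 2 * (c - k) ^ 2 - 4) ≤ gT N k c := by
  obtain ⟨j, hj⟩ : ∃ j, 2 * (c * k) = j + 1 := ⟨2 * (c * k) - 1, by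
    have : 1 ≤ c * k := Nat.mul_pos hc hk
    omega⟩
  have hj1 : 1 ≤ j := by
    have : 1 ≤ c * k := Nat.mul_pos hc hk
    omega
  have h1 := cf_mul_nonneg (F := A c) (M := N - 2 * (c - k) ^ 2)
    (fun m hm => hA m (by nlinarith [sq_nonneg ((c : ℤ) - k)])) (W_ge hj1)
  have e1 : A c * ((1 - X ^ (4 * j + 4)) * W - (1 + 2 * X ^ 4)) =
      P c - X ^ (4 * j + 4) * P c - (A c + 2 * (X ^ 4 * A c)) := by
    rw [P_eq]
    ring
  rw [e1, cf_sub, cf_sub, cf_add, cf_two_mul, cf_X_pow_mul, cf_X_pow_mul] at h1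
  have e2 : N - 2 * ((c : ℤ) - k) ^ 2 - ((4 * j + 4 : ℕ) : ℤ) = N - 2 * (c + k) ^ 2 := by
    zify at hj
    push_cast
    linear_combination 4 * hj
  rw [e2] at h1
  unfold gT
  push_cast at h1
  linarith

theorem main_ind (n : ℕ) : ∀ k : ℕ, 1 ≤ k →
    0 ≤ cf (A k) n ∧ (e k ≤ n → ¬ (k = 1 ∧ n = 7) → 1 ≤ cf (A k) n) := by
  induction n using Nat.strong_induction_on with
  | _ n ih =>
  intro k hk
  rcases Nat.even_or_odd' n with ⟨N, rfl | rfl⟩
  swap
  · push_cast
    exact ⟨A_odd_nonneg N k, fun h1 h2 => A_odd_pos N k hk h1 (by omega)⟩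
  have hek : (k : ℤ) ≤ e k := by
    have := abs_le_e k
    rwa [Nat.abs_cast] at this
  rcases Nat.eq_zero_or_pos N with rfl | hN
  · rw [A_vanish k (by simp; omega)]
    refine ⟨le_rfl, fun h => ?_⟩
    simp at h
    omega
  push_cast
  have hA0 : ∀ c : ℕ, 1 ≤ c → ∀ m : ℤ, m ≤ N → 0 ≤ cf (A c) m := by
    intro c hc m hm
    by_cases h0 : 0 ≤ m
    · obtain ⟨m, rfl⟩ := Int.eq_ofNat_of_zero_le h0
      exact (ih m (by omega) c hc).1
    · rw [cf_neg _ (by omega)]
  have hA1 : ∀ c : ℕ, 1 ≤ c → ∀ m : ℤ, m ≤ N → e c ≤ m → ¬ (c = 1 ∧ m = 7) →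
      1 ≤ cf (A c) m := by
    intro c hc m hm h1 h2
    obtain ⟨m, rfl⟩ := Int.eq_ofNat_of_zero_le ((e_nonneg c).trans h1)
    exact (ih m (by omega) c hc).2 h1 (by omega)
  have hg0 : ∀ c : ℕ, 0 ≤ gT N k c := by
    intro c
    rcases Nat.eq_zero_or_pos c with rfl | hc
    · simp [gT]
    · have := gT_ge N hk hc (hA0 c hc)
      have h1 := hA0 c hc (N - 2 * (c - k) ^ 2) (by nlinarith [sq_nonneg ((c : ℤ) - k)])
      have h2 := hA0 c hc (N - 2 * (c - k) ^ 2 - 4) (by nlinarith [sq_nonneg ((c : ℤ) - k)])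
      linarith
  have hG0 : 0 ≤ ∑' c : ℕ, gT N k c := tsum_nonneg hg0
  have hG : ∀ c : ℕ, gT N k c ≤ ∑' c : ℕ, gT N k c := fun c =>
    (gT_summable N k).le_tsum c fun j _ => hg0 j
  have hg1 : ∀ c : ℕ, 1 ≤ c → e c ≤ N - 2 * (c - k) ^ 2 → 1 ≤ ∑' c : ℕ, gT N k c := by
    intro c hc h
    refine le_trans ?_ ((gT_ge N hk hc (hA0 c hc)).trans (hG c))
    have b1 : (N : ℤ) - 2 * (c - k) ^ 2 ≤ N := by nlinarith [sq_nonneg ((c : ℤ) - k)]
    have h1 := hA0 c hc (N - 2 * (c - k) ^ 2) b1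
    have h2 := hA0 c hc (N - 2 * (c - k) ^ 2 - 4) (by omega)
    by_cases h7 : c = 1 ∧ (N : ℤ) - 2 * (c - k) ^ 2 = 7
    · have := hA1 c hc (N - 2 * (c - k) ^ 2 - 4) (by omega) (by rw [h7.2, h7.1]; simp [e])
        (by omega)
      linarith
    · have := hA1 c hc _ b1 h h7
      linarith
  rw [A_even]
  by_cases hsq : ∃ c0 : ℕ, (N : ℤ) = 2 * (c0 + k) ^ 2
  · obtain ⟨c0, h0⟩ := hsq
    have hD : ∑' c : ℕ, dT N k c = 2 * (-1) ^ c0 := by
      rw [tsum_eq_single c0, dT, cf_one, if_pos (by omega), mul_one]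
      intro c hc
      rw [dT, cf_one, if_neg, mul_zero]
      intro h
      apply hc
      have h1 : ((c : ℤ) + k) ^ 2 = (c0 + k) ^ 2 := by omega
      have h2 := (pow_left_inj₀ (by positivity) (by positivity) two_ne_zero).mp h1
      omega
    rw [hD, cf_one]
    rcases Nat.eq_zero_or_pos c0 with rfl | hc0
    · rw [if_pos (by simp at h0; omega)]
      constructor <;> intros <;> simp only [pow_zero] <;> linarith
    · have hb : e k + 4 ≤ N := by
        unfold e
        have : (1 : ℤ) ≤ c0 := by omega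
        have : (1 : ℤ) ≤ k := by omega
        nlinarith
      have h3 := (gT_ge N hk hk (hA0 k hk)).trans (hG k)
      simp only [sub_self, ne_eq, OfNat.ofNat_ne_zero, not_false_eq_true, zero_pow, mul_zero,
        sub_zero] at h3
      have h1 := hA1 k hk N le_rfl (by omega) (by omega)
      have h2 := hA1 k hk (N - 4) (by omega) (by omega) (by omega)
      have h4 : (-2 : ℤ) ≤ 2 * (-1) ^ c0 := by
        rcases neg_one_pow_eq_or ℤ c0 with h | h <;> rw [h] <;> norm_num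
      rw [if_neg (by unfold e at hb; omega)]
      constructor <;> intros <;> linarith
  · push Not at hsq
    have hD : ∑' c : ℕ, dT N k c = 0 := by
      rw [← tsum_zero (β := ℕ)]
      apply tsum_congr
      intro c
      rw [dT, cf_one, if_neg, mul_zero]
      have := hsq c
      omega
    have h00 := hsq 0
    simp only [Nat.cast_zero, zero_add] at h00
    rw [hD, cf_one, if_neg (by omega), add_zero, sub_zero]
    refine ⟨hG0, fun h _ => ?_⟩
    rcases Nat.even_or_odd' k with ⟨l, rfl | rfl⟩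
    · apply hg1 l (by omega)
      unfold e at *
      push_cast at h ⊢
      nlinarith
    · rcases Nat.eq_zero_or_pos l with rfl | hl
      · apply hg1 1 le_rfl
        simp [e] at h h00 ⊢
        omega
      · apply hg1 l hl
        unfold e at *
        push_cast at h ⊢
        have : 8 * (l : ℤ) ^ 2 + 10 * l + 3 ≤ 2 * N := by nlinarith
        have : 4 * (l : ℤ) ^ 2 + 5 * l + 2 ≤ N := by omega
        nlinarith

end Pool.Agent.Work.MP_058057_co
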