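import Pool.Agent.Work.MP_058057_co.Bilateral

/-! The odd coefficients of `A k` are sums of manifestly nonnegative terms. -/

namespace Pool.Agent.Work.MP_058057_co

open Finset PowerSeries

/-- Alternating sum of `φ` over a window of length `2 k` around `s`. -/
def Jg (φ : ℤ → ℤ) : ℕ → ℤ → ℤ
  | 0, _ => 0
  | k + 1, s => -Jg φ k s + φ (s + k) - φ (s - k - 1)

theorem Jg_sub (φ ψ : ℤ → ℤ) (k : ℕ) (s : ℤ) :
    Jg (fun v => φ v - ψ v) k s = Jg φ k s - Jg ψ k s := by
  induction k with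
  | zero => simp [Jg]
  | succ k ih =>
    simp only [Jg, ih]
    ring

theorem Jg_zero {φ : ℤ → ℤ} (h : ∀ v, φ v = 0) (k : ℕ) (s : ℤ) : Jg φ k s = 0 := by
  induction k with
  | zero => simp [Jg]
  | succ k ih => simp [Jg, ih, h]

theorem Jg_neg {φ : ℤ → ℤ} (h : ∀ v, φ (-1 - v) = φ v) (k : ℕ) (s : ℤ) :
    Jg φ k (-s) = -Jg φ k s := by
  induction k with
  | zero => simp [Jg]
  | succ k ih =>
    simp only [Jg, ih]
    rw [← h (-s + k), ← h (-s - k - 1), show -1 - (-s + k) = s - k - 1 by ring,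
      show -1 - (-s - k - 1) = s + k by ring]
    ring

theorem Jg_succ_succ (φ : ℤ → ℤ) (k : ℕ) (s : ℤ) :
    Jg φ (k + 1) (s + 1) = Jg φ k s - φ (s + k) + φ (s + k + 1) := by
  induction k with
  | zero => simp [Jg]; ring
  | succ k ih =>
    rw [Jg, ih, Jg]
    push_cast
    rw [show s + 1 - (k + 1) - 1 = s - k - 1 by ring, show s + 1 + (k + 1) = s + (k + 1) + 1 by ring,
      show s + k + 1 = s + (k + 1) by ring]
    ring

theorem Jg_closed {φ : ℤ → ℤ} (h : ∀ v, φ (-1 - v) = φ v) (k s : ℕ) :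
    -Jg φ k s = ∑ i ∈ range (min k s),
      (φ ((k - s + (s - k) + 2 * i : ℕ) : ℤ) - φ (((k - s + (s - k) + 2 * i : ℕ) : ℤ) + 1)) := by
  induction k generalizing s with
  | zero => simp [Jg]
  | succ k ih =>
    cases s with
    | zero =>
      have := Jg_neg h (k + 1) 0
      simp only [neg_zero] at this
      simp only [Nat.cast_zero, Nat.min_zero, range_zero, sum_empty]
      omega
    | succ s =>
      rw [Nat.cast_succ, Jg_succ_succ, Nat.succ_min_succ, sum_range_succ, Nat.succ_sub_succ,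
        Nat.succ_sub_succ, ← ih s]
      have : ((k - s + (s - k) + 2 * min k s : ℕ) : ℤ) = s + k := by omega
      rw [this]
      ring

/-- The basic terms. -/
noncomputable def rho (N w v : ℤ) : ℤ := cf Pd (N - 2 * v * (v + 1) - e w)

theorem rho_symm (N w v : ℤ) : rho N w (-1 - v) = rho N w v := by
  unfold rho
  congr 1
  ring

theorem rho_zero {N w : ℤ} (h : N < |w|) (v : ℤ) : rho N w v = 0 :=
  cf_neg _ (by have := abs_le_e w; have := y_nonneg v; omega)

theorem xi_odd (N : ℕ) : xi (2 * N + 1) = 0 := by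
  unfold xi
  apply Finset.sum_eq_zero
  intro m _
  rw [if_neg (by omega)]

theorem A_odd_tsum (N k : ℕ) : cf (A k) (2 * N + 1) = ∑' w : ℤ, Jg (rho N w) k w := by
  induction k with
  | zero =>
    rw [A_zero, show (2 * N + 1 : ℤ) = ((2 * N + 1 : ℕ) : ℤ) by push_cast; ring, cf_nat, Xi,
      coeff_mk, xi_odd]
    simp [Jg]
  | succ k ih =>
    have s1 : Summable fun w : ℤ => Jg (rho N w) k w :=
      sumZ N fun w hw => Jg_zero (rho_zero hw) _ _
    have s2 : Summable fun w : ℤ => rho N w (w + k) := sumZ N fun w hw => rho_zero hw _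
    have s3 : Summable fun w : ℤ => rho N w (w - k - 1) := sumZ N fun w hw => rho_zero hw _
    rw [A_succ, ih, Q_odd, Q_odd]
    simp only [Jg]
    rw [(s1.neg.add s2).tsum_sub s3, s1.neg.tsum_add s2, tsum_neg]
    congr 1
    apply tsum_congr
    intro w
    unfold rho
    congr 1
    ring

/-- The nonnegative terms. -/
noncomputable def kap (N : ℤ) (u v : ℕ) : ℤ :=
  cf ((1 - X ^ (2 * u)) * ((1 - X ^ (4 * v + 4)) * Pd)) (N - e (-u) - 2 * v * (v + 1))

theorem kap_nonneg (N : ℤ) (u v : ℕ) : 0 ≤ kap N u v := (Pd_nn _ _).cf_nonneg _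

theorem kap_eq (N : ℤ) (u v : ℕ) :
    kap N u v = (rho N (-u) v - rho N u v) - (rho N (-u) (v + 1) - rho N u (v + 1)) := by
  unfold kap rho
  rw [sub_mul, one_mul, cf_sub, cf_X_pow_mul, sub_mul, one_mul, cf_sub, cf_sub, cf_X_pow_mul,
    cf_X_pow_mul]
  have a1 : N - e (-u) - 2 * v * (v + 1) = N - 2 * v * (v + 1) - e (-u) := by ring
  have a2 : N - e (-u) - 2 * v * (v + 1) - ((4 * v + 4 : ℕ) : ℤ) =
      N - 2 * (v + 1) * (v + 1 + 1) - e (-u) := by
    push_cast
    ring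
  have a3 : N - e (-u) - 2 * v * (v + 1) - ((2 * u : ℕ) : ℤ) = N - 2 * v * (v + 1) - e u := by
    unfold e
    push_cast
    ring
  have a4 : N - 2 * v * (v + 1) - e u - ((4 * v + 4 : ℕ) : ℤ) =
      N - 2 * (v + 1) * (v + 1 + 1) - e u := by
    push_cast
    ring
  rw [a2, a3, a4, a1]
  ring

/-- The contribution of `u`. -/
noncomputable def oddTerm (N : ℤ) (k u : ℕ) : ℤ :=
  ∑ i ∈ range (min k u), kap N u (k - u + (u - k) + 2 * i)

theorem oddTerm_nonneg (N : ℤ) (k u : ℕ) : 0 ≤ oddTerm N k u :=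
  sum_nonneg fun _ _ => kap_nonneg _ _ _

theorem oddTerm_eq (N : ℤ) (k u : ℕ) :
    Jg (rho N u) k u + Jg (rho N (-u)) k (-u) = oddTerm N k u := by
  have h := Jg_closed (φ := fun v => rho N (-u) v - rho N u v)
    (fun v => by simp only [rho_symm]) k u
  rw [Jg_sub] at h
  rw [Jg_neg (rho_symm N (-u)), oddTerm]
  simp only [kap_eq]
  rw [← h]
  ring

theorem oddTerm_summable (N k : ℕ) : Summable fun u : ℕ => oddTerm N k u := by
  have s1 : Summable fun w : ℤ => Jg (rho N w) k w :=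
    sumZ N fun w hw => Jg_zero (rho_zero hw) _ _
  simpa only [oddTerm_eq] using s1.nat_add_neg

theorem A_odd (N k : ℕ) : cf (A k) (2 * N + 1) = ∑' u : ℕ, oddTerm N k u := by
  have s1 : Summable fun w : ℤ => Jg (rho N w) k w :=
    sumZ N fun w hw => Jg_zero (rho_zero hw) _ _
  have h := tsum_nat_add_neg s1
  have h0 := Jg_neg (rho_symm N 0) k 0
  simp only [neg_zero] at h0
  simp only [oddTerm_eq] at h
  rw [A_odd_tsum, h]
  omega

theorem A_odd_nonneg (N k : ℕ) : 0 ≤ cf (A k) (2 * N + 1) := by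
  rw [A_odd]
  exact tsum_nonneg fun u => oddTerm_nonneg _ _ _

theorem A_odd_vanish (N k : ℕ) (h : 2 * N + 1 < e k) : cf (A k) (2 * N + 1) = 0 := by
  rw [A_odd, ← tsum_zero (β := ℕ)]
  apply tsum_congr
  intro u
  apply Finset.sum_eq_zero
  intro i _
  apply cf_neg
  obtain ⟨d, hd⟩ : ∃ d : ℕ, d = k - u + (u - k) + 2 * i := ⟨_, rfl⟩
  rw [← hd]
  have h1 : (k : ℤ) - u ≤ d := by omega
  have h2 : (u : ℤ) - k ≤ d := by omega
  have h3 : ((k : ℤ) - u) * (k - u + 1) ≤ d * (d + 1) := by nlinarith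
  have h4 : 0 ≤ (2 * (2 * (u : ℤ) - k) - 1) * (2 * u - k - 1) := by
    rcases le_or_gt (2 * (u : ℤ) - k) 0 with h | h <;> nlinarith
  unfold e at *
  nlinarith

theorem kap_le (N k u : ℕ) (hk : 1 ≤ k) (hu : 1 ≤ u) :
    kap N u (k - u + (u - k)) ≤ cf (A k) (2 * N + 1) := by
  rw [A_odd]
  refine le_trans ?_ ((oddTerm_summable N k).le_tsum u fun j _ => oddTerm_nonneg _ _ _)
  have := Finset.single_le_sum (f := fun i => kap N u (k - u + (u - k) + 2 * i))
    (s := range (min k u)) (fun i _ => kap_nonneg _ _ _) (a := 0) (mem_range.mpr (by omega))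
  simpa [oddTerm] using this

theorem kap_pos (N : ℤ) (u v m : ℕ) (hm : N - e (-u) - 2 * v * (v + 1) = m) (hu : 1 ≤ u)
    (h : 2 ≤ u ∨ m ≠ 2) : 1 ≤ kap N u v := by
  unfold kap
  rw [hm, cf_nat]
  by_cases h2 : m % 3 = 2
  · rcases h with h | h
    · have := Pd_pos (2 * u) v 2 (m / 3) 0 (by omega)
      rwa [show 2 + (3 * (m / 3) + 5 * 0) = m by omega] at this
    · have := Pd_pos (2 * u) v 0 (m / 3 - 1) 1 (by omega)
      rwa [show 0 + (3 * (m / 3 - 1) + 5 * 1) = m by omega] at this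
  · have := Pd_pos (2 * u) v (m % 3) (m / 3) 0 (by omega)
    rwa [show m % 3 + (3 * (m / 3) + 5 * 0) = m by omega] at this

theorem A_odd_pos (N k : ℕ) (hk : 1 ≤ k) (h : e k ≤ 2 * N + 1) (hne : ¬ (k = 1 ∧ N = 3)) :
    1 ≤ cf (A k) (2 * N + 1) := by
  by_cases h27 : k = 2 ∧ N = 7
  · obtain ⟨rfl, rfl⟩ := h27
    refine le_trans ?_ (kap_le 7 2 2 (by omega) (by omega))
    exact kap_pos _ _ _ 1 (by simp [e]) (by omega) (Or.inl le_rfl)
  refine le_trans ?_ (kap_le N k ((k + 1) / 2) hk (by omega))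
  rcases Nat.even_or_odd' k with ⟨l, rfl | rfl⟩
  · rw [show (2 * l + 1) / 2 = l by omega, show 2 * l - l + (l - 2 * l) = l by omega]
    have h0 : 0 ≤ (N : ℤ) - e (-l) - 2 * l * (l + 1) := by
      unfold e at *
      push_cast at h
      have : 8 * (l : ℤ) ^ 2 + 2 * l ≤ 2 * N + 1 := by nlinarith
      have : 4 * (l : ℤ) ^ 2 + l ≤ N := by omega
      nlinarith
    obtain ⟨m, hm⟩ := Int.eq_ofNat_of_zero_le h0
    refine kap_pos _ _ _ m hm (by omega) ?_
    by_cases hl : 2 ≤ l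
    · exact Or.inl hl
    · obtain rfl : l = 1 := by omega
      right
      simp [e] at hm
      omega
  · rw [show (2 * l + 1 + 1) / 2 = l + 1 by omega,
      show 2 * l + 1 - (l + 1) + (l + 1 - (2 * l + 1)) = l by omega]
    have h0 : 0 ≤ (N : ℤ) - e (-(l + 1 : ℕ)) - 2 * l * (l + 1) := by
      unfold e at *
      push_cast at h ⊢
      nlinarith
    obtain ⟨m, hm⟩ := Int.eq_ofNat_of_zero_le h0
    refine kap_pos _ _ _ m hm (by omega) ?_
    by_cases hl : 1 ≤ l
    · exact Or.inl (by omega)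
    · obtain rfl : l = 0 := by omega
      right
      simp [e] at hm
      omega

end Pool.Agent.Work.MP_058057_co
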