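import Pool.Agent.Work.MP_058057_co.Series

/-! The series `Q`, `Pd`, `W` and the identities between them. -/

namespace Pool.Agent.Work.MP_058057_co

open Finset PowerSeries

/-- The generating function of `Q0`. -/
noncomputable def Qs : ℤ⟦X⟧ := PowerSeries.mk fun n => (Q0 n : ℤ)

/-- `1 / ((x; x^2) (x^4; x^4))`, the generating function of pod. -/
noncomputable def Pd : ℤ⟦X⟧ := lim fun i => geo (2 * i + 1) * geo (4 * i + 4)

/-- `1 / ((x^4; x^8) (x^4; x^4))`. -/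
noncomputable def W : ℤ⟦X⟧ := lim fun i => geo (8 * i + 4) * geo (4 * i + 4)

/-- Truncation of `ψ(x)`. -/
noncomputable def psi (M : ℕ) : ℤ⟦X⟧ :=
  ∑ i ∈ range M, (X ^ (i * (2 * i + 1)) + X ^ ((i + 1) * (2 * i + 1)))

/-- Truncation of `ψ(-x)`. -/
noncomputable def Sig (M : ℕ) : ℤ⟦X⟧ :=
  ∑ i ∈ range M, (-1) ^ i * (X ^ (i * (2 * i + 1)) - X ^ ((i + 1) * (2 * i + 1)))

theorem good_geo (a b : ℕ) (ha : 1 ≤ a) (hb : 1 ≤ b) : Good fun i => geo (a * i + b) :=
  fun i => geo_cong (by nlinarith) (by omega)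

theorem good_sub (a b : ℕ) (ha : 1 ≤ a) (hb : 1 ≤ b) : Good fun i => 1 - X ^ (a * i + b) :=
  fun i => one_sub_cong (by nlinarith)

theorem good_add (a b : ℕ) (ha : 1 ≤ a) (hb : 1 ≤ b) : Good fun i => 1 + X ^ (a * i + b) :=
  fun i => one_add_cong (by nlinarith)

theorem Pd_cong (M : ℕ) :
    Cong M Pd (∏ i ∈ range M, (geo (2 * i + 1) * geo (4 * i + 4))) :=
  ((good_geo 2 1 (by omega) (by omega)).mul (good_geo 4 4 (by omega) (by omega))).lim_cong M

theorem W_cong (M : ℕ) :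
    Cong M W (∏ i ∈ range M, (geo (8 * i + 4) * geo (4 * i + 4))) :=
  ((good_geo 8 4 (by omega) (by omega)).mul (good_geo 4 4 (by omega) (by omega))).lim_cong M

theorem prod_filter_four (M : ℕ) :
    ∏ m ∈ (range (4 * M)).filter (fun i => ¬ 4 ∣ i), (1 + X ^ m : ℤ⟦X⟧) =
      (∏ i ∈ range (2 * M), (1 + X ^ (2 * i + 1))) * ∏ i ∈ range M, (1 + X ^ (4 * i + 2)) := by
  rw [prod_filter, prod_range_two_mul', ← prod_mul_distrib]
  induction M with
  | zero => simp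
  | succ M ih =>
    rw [show 4 * (M + 1) = 4 * M + 1 + 1 + 1 + 1 by ring, prod_range_succ, prod_range_succ,
      prod_range_succ, prod_range_succ, ih, prod_range_succ, if_neg (by omega), if_pos (by omega),
      if_pos (by omega), if_pos (by omega)]
    ring

theorem Qs_cong (M : ℕ) :
    Cong M Qs (∏ i ∈ range M, ((1 + X ^ (2 * i + 1)) * (1 + X ^ (4 * i + 2)))) := by
  have h1 : Cong M Qs (∏ m ∈ (range (4 * M)).filter (fun i => ¬ 4 ∣ i), (1 + X ^ m : ℤ⟦X⟧)) := by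
    apply Cong.of_coeff
    intro n hn
    rw [Qs, coeff_mk, Q0_eq_card n (4 * M) (by omega), Finset.prod_one_add, map_sum,
      Finset.card_filter]
    push_cast
    apply Finset.sum_congr rfl
    intro s _
    rw [Finset.prod_pow_eq_pow_sum, coeff_X_pow]
    simp only [eq_comm]
  rw [prod_filter_four] at h1
  rw [prod_mul_distrib]
  exact h1.trans (((good_add 2 1 (by omega) (by omega)).prod_cong (by omega)).mul_right _)

theorem sq_factor (s : ℕ) : (1 - X ^ (2 * s) : ℤ⟦X⟧) = (1 - X ^ s) * (1 + X ^ s) := by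
  ring

theorem geo_eq {s : ℕ} (hs : 0 < s) : geo s = (1 + X ^ s) * geo (2 * s) := by
  have h1 := geo_mul hs
  have h2 := geo_mul (s := 2 * s) (by omega)
  rw [sq_factor] at h2
  linear_combination (-geo s) * h2 + ((1 + X ^ s) * geo (2 * s)) * h1

theorem Pd_eq : Pd = Qs * W := by
  apply eq_of_cong
  intro M
  refine (Pd_cong M).trans (Cong.symm (((Qs_cong M).mul (W_cong M)).trans (Cong.of_eq ?_)))
  rw [← prod_mul_distrib]
  apply Finset.prod_congr rfl
  intro i _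
  rw [geo_eq (s := 2 * i + 1) (by omega), geo_eq (s := 2 * (2 * i + 1)) (by omega),
    show 2 * (2 * (2 * i + 1)) = 8 * i + 4 by ring, show 2 * (2 * i + 1) = 4 * i + 2 by ring]
  ring

theorem even_prod_cong (M : ℕ) :
    Cong M (∏ i ∈ range M, (1 - X ^ (2 * i + 2)))
      (∏ i ∈ range M, ((1 - X ^ (2 * i + 1)) * (1 + X ^ (2 * i + 1)) * (1 - X ^ (4 * i + 4)))) := by
  refine ((good_sub 2 2 (by omega) (by omega)).prod_cong (show M ≤ 2 * M by omega)).symm.trans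
    (Cong.of_eq ?_)
  rw [prod_range_two_mul']
  apply Finset.prod_congr rfl
  intro i _
  ring

theorem Pd_mul_Sig (M : ℕ) : Cong M (Pd * Sig M) 1 := by
  have h1 := gauss_dvd (-X : ℤ⟦X⟧) M
  have e1 : ∏ i ∈ range M, (1 - (-X : ℤ⟦X⟧) ^ (2 * i + 2)) =
      ∏ i ∈ range M, (1 - X ^ (2 * i + 2)) :=
    Finset.prod_congr rfl fun i _ => by rw [Even.neg_pow ⟨i + 1, by ring⟩]
  have e2 : ∏ i ∈ range M, (1 - (-X : ℤ⟦X⟧) ^ (2 * i + 1)) =
      ∏ i ∈ range M, (1 + X ^ (2 * i + 1)) :=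
    Finset.prod_congr rfl fun i _ => by rw [Odd.neg_pow ⟨i, rfl⟩, sub_neg_eq_add]
  have e3 : ∑ i ∈ range M, ((-X : ℤ⟦X⟧) ^ (i * (2 * i + 1)) + (-X) ^ ((i + 1) * (2 * i + 1))) =
      Sig M := by
    apply Finset.sum_congr rfl
    intro i _
    rw [neg_pow X, neg_pow X, mul_comm i, mul_comm (i + 1), pow_mul (-1 : ℤ⟦X⟧),
      pow_mul (-1 : ℤ⟦X⟧), Odd.neg_one_pow ⟨i, rfl⟩]
    ring
  rw [e1, e2, e3] at h1
  have h2 : Cong M (∏ i ∈ range M, (1 - X ^ (2 * i + 2)))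
      ((∏ i ∈ range M, (1 + X ^ (2 * i + 1))) * Sig M) := by
    unfold Cong
    rw [neg_pow] at h1
    exact dvd_of_mul_left_dvd h1
  have h3 := ((h2.symm.trans (even_prod_cong M)).mul (Pd_cong M)).mul_right
    (∏ i ∈ range M, ((1 - X ^ (2 * i + 1)) * geo (4 * i + 2)))
  have e4 : (∏ i ∈ range M, (1 + X ^ (2 * i + 1) : ℤ⟦X⟧)) *
      (∏ i ∈ range M, ((1 - X ^ (2 * i + 1)) * geo (4 * i + 2))) = 1 := by
    rw [← prod_mul_distrib]
    apply Finset.prod_eq_one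
    intro i _
    have := geo_mul (s := 4 * i + 2) (by omega)
    linear_combination this
  have e5 : (∏ i ∈ range M, ((1 - X ^ (2 * i + 1)) * (1 + X ^ (2 * i + 1)) *
      (1 - X ^ (4 * i + 4)) : ℤ⟦X⟧)) * (∏ i ∈ range M, (geo (2 * i + 1) * geo (4 * i + 4))) *
      (∏ i ∈ range M, ((1 - X ^ (2 * i + 1)) * geo (4 * i + 2))) = 1 := by
    rw [← prod_mul_distrib, ← prod_mul_distrib]
    apply Finset.prod_eq_one
    intro i _
    have a1 := geo_mul (s := 4 * i + 2) (by omega)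
    have a2 := geo_mul (s := 4 * i + 4) (by omega)
    have a3 := geo_mul (s := 2 * i + 1) (by omega)
    rw [show 4 * i + 2 = 2 * (2 * i + 1) by ring, sq_factor] at a1
    rw [show 4 * i + 2 = 2 * (2 * i + 1) by ring]
    calc _ = ((1 - X ^ (2 * i + 1)) * geo (2 * i + 1)) * ((1 - X ^ (4 * i + 4)) * geo (4 * i + 4)) *
        ((1 - X ^ (2 * i + 1)) * (1 + X ^ (2 * i + 1)) * geo (2 * (2 * i + 1))) := by ring
      _ = 1 := by rw [a1, a2, a3]; simp
  rw [e5] at h3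
  refine Cong.trans (Cong.of_eq ?_) h3
  linear_combination (-(Pd * Sig M)) * e4

theorem Qs_cong_psi (M : ℕ) :
    Cong M Qs (psi M * PowerSeries.expand 2 two_ne_zero Pd) := by
  have h1 : Cong M (∏ i ∈ range M, (1 - X ^ (2 * i + 2)))
      ((∏ i ∈ range M, (1 - X ^ (2 * i + 1))) * psi M) := gauss_dvd (X : ℤ⟦X⟧) M
  have h2 := (h1.symm.trans (even_prod_cong M)).mul_left (∏ i ∈ range M, geo (2 * i + 1))
  have e1 : (∏ i ∈ range M, geo (2 * i + 1)) * (∏ i ∈ range M, (1 - X ^ (2 * i + 1))) = 1 := by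
    rw [← prod_mul_distrib]
    apply Finset.prod_eq_one
    intro i _
    rw [mul_comm, geo_mul (by omega)]
  have e2 : (∏ i ∈ range M, geo (2 * i + 1)) * (∏ i ∈ range M, ((1 - X ^ (2 * i + 1)) *
      (1 + X ^ (2 * i + 1)) * (1 - X ^ (4 * i + 4)) : ℤ⟦X⟧)) =
      (∏ i ∈ range M, (1 + X ^ (2 * i + 1))) * ∏ i ∈ range M, (1 - X ^ (4 * i + 4)) := by
    rw [← prod_mul_distrib, ← prod_mul_distrib]
    apply Finset.prod_congr rfl
    intro i _
    have a3 := geo_mul (s := 2 * i + 1) (by omega)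
    linear_combination ((1 + X ^ (2 * i + 1)) * (1 - X ^ (4 * i + 4))) * a3
  rw [← mul_assoc, e1, one_mul, e2] at h2
  have h3 : Cong M (∏ i ∈ range M, (1 - X ^ (4 * i + 4)))
      (∏ i ∈ range M, ((1 - X ^ (8 * i + 4)) * (1 - X ^ (8 * i + 8)))) := by
    refine ((good_sub 4 4 (by omega) (by omega)).prod_cong (show M ≤ 2 * M by omega)).symm.trans
      (Cong.of_eq ?_)
    rw [prod_range_two_mul']
    apply Finset.prod_congr rfl
    intro i _
    ring
  have h4 := (Pd_cong M).expand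
  rw [map_prod] at h4
  have h5 := (h2.trans (h3.mul_left _)).mul h4
  refine (Qs_cong M).trans (Cong.trans (Cong.of_eq ?_) h5.symm)
  rw [← prod_mul_distrib, ← prod_mul_distrib]
  apply Finset.prod_congr rfl
  intro i _
  rw [map_mul, expand_geo, expand_geo]
  have a1 := geo_mul (s := 2 * (2 * i + 1)) (by omega)
  have a2 := geo_mul (s := 2 * (4 * i + 4)) (by omega)
  calc _ = (1 + X ^ (2 * i + 1)) * (1 + X ^ (4 * i + 2)) *
        ((1 - X ^ (2 * (2 * i + 1))) * geo (2 * (2 * i + 1))) *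
        ((1 - X ^ (2 * (4 * i + 4))) * geo (2 * (4 * i + 4))) := by rw [a1, a2]; simp
    _ = _ := by ring

/-- Removing one factor from a product of geometric series. -/
theorem one_sub_mul_prod {M j : ℕ} (hj : j < M) :
    (1 - X ^ (4 * j + 4)) * ∏ i ∈ range M, geo (4 * i + 4) =
      ∏ i ∈ (range M).erase j, geo (4 * i + 4) := by
  rw [← Finset.mul_prod_erase _ _ (mem_range.mpr hj), ← mul_assoc, geo_mul (by omega), one_mul]

theorem NN_geo (s : ℕ) : NN (geo s) := (geo_ge_one s).nn NN_one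

theorem ge_of_cong {a b : ℤ⟦X⟧} (M0 : ℕ) (h : ∀ M, M0 ≤ M → ∃ c, Cong M a c ∧ Ge c b) :
    Ge a b := by
  intro n
  obtain ⟨c, h1, h2⟩ := h (max M0 (n + 1)) (le_max_left _ _)
  rw [map_sub, h1.coeff_eq (lt_of_lt_of_le (Nat.lt_succ_self n) (le_max_right _ _)), ← map_sub]
  exact h2 n

theorem W_ge {j : ℕ} (hj : 1 ≤ j) : Ge ((1 - X ^ (4 * j + 4)) * W) (1 + 2 * X ^ 4) := by
  apply ge_of_cong (j + 1)
  intro M hM
  refine ⟨_, (W_cong M).mul_left _, ?_⟩
  rw [prod_mul_distrib, mul_left_comm, one_sub_mul_prod (by omega),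
    ← Finset.mul_prod_erase _ _ (mem_range.mpr (show 0 < M by omega)),
    ← Finset.mul_prod_erase ((range M).erase j) (a := 0) _
      (mem_erase.mpr ⟨by omega, mem_range.mpr (by omega)⟩)]
  have g4 : Ge (geo 4) (1 + X ^ 4) := geo_ge_one_add (by omega)
  have n4 : NN (1 + X ^ 4) := NN_one.add (NN_X_pow 4)
  have a1 := g4.mul (prod_ge_one ((range M).erase 0) _ fun i => geo_ge_one (8 * i + 4)) n4 NN_one
  have a2 := g4.mul (prod_ge_one (((range M).erase j).erase 0) _ fun i => geo_ge_one (4 * i + 4))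
    n4 NN_one
  have a3 := a1.mul a2 (n4.mul NN_one) (n4.mul NN_one)
  refine a3.trans ?_
  have : ((1 + X ^ 4) * 1 * ((1 + X ^ 4) * 1) - (1 + 2 * X ^ 4) : ℤ⟦X⟧) = X ^ 8 := by ring
  unfold Ge
  rw [this]
  exact NN_X_pow 8

theorem sum_X_pow_ge {u i : ℕ} (hi : i < u) : Ge (∑ l ∈ range u, X ^ l) (X ^ i) := by
  unfold Ge
  rw [← Finset.add_sum_erase _ _ (mem_range.mpr hi), add_sub_cancel_left]
  intro n
  rw [map_sum]
  exact sum_nonneg fun l _ => NN_X_pow l n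

theorem Pd_ge (u j : ℕ) :
    Ge ((1 - X ^ u) * ((1 - X ^ (4 * j + 4)) * Pd))
      ((∑ l ∈ range u, X ^ l) * (geo 3 * geo 5)) := by
  apply ge_of_cong (j + 3)
  intro M hM
  refine ⟨_, ((Pd_cong M).mul_left _).mul_left _, ?_⟩
  obtain ⟨M', rfl⟩ : ∃ M', M = M' + 3 := ⟨M - 3, by omega⟩
  rw [prod_mul_distrib, mul_left_comm (1 - X ^ (4 * j + 4)), one_sub_mul_prod (by omega),
    prod_range_succ', prod_range_succ', prod_range_succ']
  have e1 : (1 - X ^ u) * geo 1 = ∑ l ∈ range u, X ^ l := by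
    have a := geo_mul (s := 1) (by omega)
    have b := mul_neg_geom_sum (X : ℤ⟦X⟧) u
    rw [pow_one] at a
    rw [← b]
    linear_combination (∑ l ∈ range u, X ^ l) * a
  have nn : NN ((∑ l ∈ range u, X ^ l) * (geo 3 * geo 5)) := by
    refine NN.mul ?_ ((NN_geo 3).mul (NN_geo 5))
    intro n
    rw [map_sum]
    exact sum_nonneg fun l _ => NN_X_pow l n
  have a1 := (prod_ge_one (range M') _ fun i => geo_ge_one (2 * (i + 1 + 1 + 1) + 1)).mul
    (prod_ge_one ((range (M' + 3)).erase j) _ fun i => geo_ge_one (4 * i + 4)) NN_one NN_one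
  have a2 := (Ge.refl ((∑ l ∈ range u, X ^ l) * (geo 3 * geo 5))).mul a1 nn (NN_one.mul NN_one)
  rw [mul_one, mul_one] at a2
  convert a2 using 1
  rw [← e1]
  ring

theorem Pd_nn (u j : ℕ) : NN ((1 - X ^ u) * ((1 - X ^ (4 * j + 4)) * Pd)) := by
  refine (Pd_ge u j).nn (NN.mul ?_ ((NN_geo 3).mul (NN_geo 5)))
  intro n
  rw [map_sum]
  exact sum_nonneg fun l _ => NN_X_pow l n

theorem Pd_pos (u j i a b : ℕ) (hi : i < u) :
    1 ≤ coeff (i + (3 * a + 5 * b)) ((1 - X ^ u) * ((1 - X ^ (4 * j + 4)) * Pd)) := by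
  have h := (Pd_ge u j).trans ((sum_X_pow_ge hi).mul
    ((geo_ge 3 a).mul (geo_ge 5 b) (NN_X_pow _) (NN_X_pow _)) (NN_X_pow _)
    ((NN_X_pow _).mul (NN_X_pow _)))
  have := h.coeff_le (i + (3 * a + 5 * b))
  rwa [← pow_add, ← pow_add, coeff_X_pow, if_pos rfl] at this

end Pool.Agent.Work.MP_058057_co
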