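import Pool.Agent.Work.MP_058057_co.Bridge
import Mathlib.RingTheory.PowerSeries.Expand
import Mathlib.Tactic.Ring
import Mathlib.Tactic.Linarith
import Mathlib.Tactic.LinearCombination

/-! Power series tools: congruences modulo `X ^ M`, geometric series, infinite products,
coefficientwise order, and the finite identity of Shanks behind the formula of Gauss. -/

namespace Pool.Agent.Work.MP_058057_co

open Finset PowerSeries

/-- Congruence modulo `X ^ M`. -/
def Cong (M : ℕ) (a b : ℤ⟦X⟧) : Prop := X ^ M ∣ a - b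

namespace Cong

variable {M : ℕ} {a b c d : ℤ⟦X⟧}

theorem refl (M : ℕ) (a : ℤ⟦X⟧) : Cong M a a := by simp [Cong]

theorem of_eq (h : a = b) : Cong M a b := h ▸ refl M a

theorem symm (h : Cong M a b) : Cong M b a := by
  unfold Cong at *
  rw [← neg_sub]
  exact h.neg_right

theorem trans (h : Cong M a b) (h' : Cong M b c) : Cong M a c := by
  unfold Cong at *
  have := dvd_add h h'
  rwa [sub_add_sub_cancel] at this

theorem mul (h : Cong M a b) (h' : Cong M c d) : Cong M (a * c) (b * d) := by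
  unfold Cong at *
  have : a * c - b * d = (a - b) * c + b * (c - d) := by ring
  rw [this]
  exact dvd_add (h.mul_right _) (h'.mul_left _)

theorem mul_left (c : ℤ⟦X⟧) (h : Cong M a b) : Cong M (c * a) (c * b) := (refl M c).mul h

theorem mul_right (c : ℤ⟦X⟧) (h : Cong M a b) : Cong M (a * c) (b * c) := h.mul (refl M c)

theorem mono {M' : ℕ} (h : Cong M a b) (hM : M' ≤ M) : Cong M' a b :=
  (pow_dvd_pow _ hM).trans h

theorem coeff_eq {n : ℕ} (h : Cong M a b) (hn : n < M) : coeff n a = coeff n b := by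
  have := (X_pow_dvd_iff.mp h) n hn
  rwa [map_sub, sub_eq_zero] at this

theorem of_coeff (h : ∀ n, n < M → coeff n a = coeff n b) : Cong M a b :=
  X_pow_dvd_iff.mpr (fun n hn => by rw [map_sub, h n hn, sub_self])

theorem expand (h : Cong M a b) :
    Cong M (PowerSeries.expand 2 two_ne_zero a) (PowerSeries.expand 2 two_ne_zero b) := by
  apply of_coeff
  intro n hn
  rw [coeff_expand, coeff_expand]
  split_ifs
  · exact h.coeff_eq (by omega)
  · rfl

end Cong

theorem eq_of_cong {a b : ℤ⟦X⟧} (h : ∀ M, Cong M a b) : a = b := by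
  ext n
  exact (h (n + 1)).coeff_eq (Nat.lt_succ_self n)

/-- The factors of an infinite product tend to `1`. -/
def Good (f : ℕ → ℤ⟦X⟧) : Prop := ∀ i, Cong (i + 1) (f i) 1

theorem Good.mul {f g : ℕ → ℤ⟦X⟧} (hf : Good f) (hg : Good g) : Good (fun i => f i * g i) :=
  fun i => by simpa using (hf i).mul (hg i)

theorem Good.prod_cong {f : ℕ → ℤ⟦X⟧} (hf : Good f) {M M' : ℕ} (h : M ≤ M') :
    Cong M (∏ i ∈ range M', f i) (∏ i ∈ range M, f i) := by
  induction M', h using Nat.le_induction with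
  | base => exact Cong.refl _ _
  | succ k hk ih =>
    rw [prod_range_succ]
    simpa using ih.mul ((hf k).mono (by omega))

/-- The infinite product. -/
noncomputable def lim (f : ℕ → ℤ⟦X⟧) : ℤ⟦X⟧ :=
  PowerSeries.mk fun n => coeff n (∏ i ∈ range (n + 1), f i)

theorem Good.lim_cong {f : ℕ → ℤ⟦X⟧} (hf : Good f) (M : ℕ) :
    Cong M (lim f) (∏ i ∈ range M, f i) := by
  apply Cong.of_coeff
  intro n hn
  rw [lim, coeff_mk]
  exact ((hf.prod_cong (Nat.succ_le_of_lt hn)).coeff_eq (Nat.lt_succ_self n)).symm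

/-- The geometric series `1 / (1 - X ^ s)`. -/
noncomputable def geo (s : ℕ) : ℤ⟦X⟧ := PowerSeries.mk fun n => if s ∣ n then 1 else 0

theorem geo_mul {s : ℕ} (hs : 0 < s) : (1 - X ^ s) * geo s = 1 := by
  ext n
  rw [sub_mul, one_mul, map_sub, coeff_X_pow_mul', geo, coeff_mk, coeff_mk, coeff_one]
  by_cases h : s ≤ n
  · rw [if_pos h, if_neg (show ¬ n = 0 by omega)]
    have : s ∣ n - s ↔ s ∣ n := by
      obtain ⟨k, rfl⟩ := Nat.exists_eq_add_of_le h
      simp
    simp [this]
  · rw [if_neg h, sub_zero]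
    by_cases h0 : n = 0
    · simp [h0]
    · rw [if_neg h0, if_neg]
      intro hd
      exact h (Nat.le_of_dvd (by omega) hd)

theorem one_sub_cong {s M : ℕ} (h : M ≤ s) : Cong M (1 - X ^ s) 1 := by
  unfold Cong
  rw [sub_sub_cancel_left]
  exact (pow_dvd_pow _ h).neg_right

theorem one_add_cong {s M : ℕ} (h : M ≤ s) : Cong M (1 + X ^ s) 1 := by
  unfold Cong
  rw [add_sub_cancel_left]
  exact pow_dvd_pow _ h

theorem geo_cong {s M : ℕ} (h : M ≤ s) (hs : 0 < s) : Cong M (geo s) 1 := by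
  have h1 := (one_sub_cong h).mul_right (geo s)
  rw [geo_mul hs, one_mul] at h1
  exact h1.symm

theorem expand_geo {s : ℕ} :
    PowerSeries.expand 2 two_ne_zero (geo s) = geo (2 * s) := by
  ext n
  rw [coeff_expand, geo, geo, coeff_mk, coeff_mk]
  by_cases h : 2 ∣ n
  · obtain ⟨m, rfl⟩ := h
    simp [Nat.mul_dvd_mul_iff_left]
  · rw [if_neg h, if_neg]
    intro h'
    exact h (Dvd.dvd.trans (Dvd.intro _ rfl) h')

/-- Nonnegative coefficients. -/
def NN (a : ℤ⟦X⟧) : Prop := ∀ n, 0 ≤ coeff n a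

theorem NN.mul {a b : ℤ⟦X⟧} (ha : NN a) (hb : NN b) : NN (a * b) := fun n => by
  rw [coeff_mul]
  exact sum_nonneg fun p _ => mul_nonneg (ha _) (hb _)

theorem NN.add {a b : ℤ⟦X⟧} (ha : NN a) (hb : NN b) : NN (a + b) := fun n => by
  rw [map_add]
  exact add_nonneg (ha _) (hb _)

theorem NN_X_pow (s : ℕ) : NN (X ^ s) := fun n => by
  rw [coeff_X_pow]
  split_ifs <;> simp

theorem NN_one : NN 1 := by simpa using NN_X_pow 0

theorem NN_zero : NN 0 := fun n => by simp

/-- Coefficientwise order. -/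
def Ge (a b : ℤ⟦X⟧) : Prop := NN (a - b)

theorem Ge.refl (a : ℤ⟦X⟧) : Ge a a := by simpa [Ge] using NN_zero

theorem Ge.trans {a b c : ℤ⟦X⟧} (h : Ge a b) (h' : Ge b c) : Ge a c := by
  have := NN.add h h'
  rwa [sub_add_sub_cancel] at this

theorem Ge.nn {a b : ℤ⟦X⟧} (h : Ge a b) (hb : NN b) : NN a := by
  have := NN.add h hb
  rwa [sub_add_cancel] at this

theorem Ge.mul {a b c d : ℤ⟦X⟧} (h : Ge a b) (h' : Ge c d) (hb : NN b) (hd : NN d) :
    Ge (a * c) (b * d) := by
  have : a * c - b * d = (a - b) * c + b * (c - d) := by ring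
  unfold Ge
  rw [this]
  exact (NN.mul h (h'.nn hd)).add (hb.mul h')

theorem Ge.coeff_le {a b : ℤ⟦X⟧} (h : Ge a b) (n : ℕ) : coeff n b ≤ coeff n a := by
  have := h n
  rw [map_sub] at this
  linarith

theorem geo_ge (s a : ℕ) : Ge (geo s) (X ^ (s * a)) := fun n => by
  rw [map_sub, geo, coeff_mk, coeff_X_pow]
  by_cases h : n = s * a
  · simp [h]
  · rw [if_neg h]
    split_ifs <;> simp

theorem geo_ge_one (s : ℕ) : Ge (geo s) 1 := by simpa using geo_ge s 0

theorem geo_ge_one_add {s : ℕ} (hs : 0 < s) : Ge (geo s) (1 + X ^ s) := fun n => by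
  rw [map_sub, map_add, geo, coeff_mk, coeff_X_pow, coeff_one]
  by_cases h : n = s
  · simp [h, hs.ne']
  · by_cases h0 : n = 0
    · simp [h0, hs.ne]
    · rw [if_neg h, if_neg h0]
      split_ifs <;> simp

theorem prod_ge_one (T : Finset ℕ) (f : ℕ → ℤ⟦X⟧) (hf : ∀ i, Ge (f i) 1) :
    Ge (∏ i ∈ T, f i) 1 := by
  classical
  induction T using Finset.induction_on with
  | empty => simpa using Ge.refl 1
  | insert a s ha ih =>
    rw [prod_insert ha]
    simpa using (hf a).mul ih NN_one NN_one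

/-- The finite identity of Shanks. -/
theorem shanks {A : Type*} [CommRing A] (q : A) (n : ℕ) :
    ∑ s ∈ range n, (∏ i ∈ range s, (1 - q ^ (2 * i + 1))) *
        (∏ j ∈ Ico (s + 1) (n + 1), (1 - q ^ (2 * j))) * q ^ (s * (2 * n + 1)) =
      (∏ i ∈ range n, (1 - q ^ (2 * i + 1))) *
        ∑ i ∈ range n, (q ^ (i * (2 * i + 1)) + q ^ ((i + 1) * (2 * i + 1))) := by
  induction n with
  | zero => simp
  | succ n ih =>
    let u : ℕ → A := fun s => (∏ i ∈ range s, (1 - q ^ (2 * i + 1))) *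
      (∏ j ∈ Ico s (n + 1), (1 - q ^ (2 * j))) * q ^ (s * (2 * n + 1))
    have tel : ∑ s ∈ range (n + 1), (u (s + 1) - u s) = u (n + 1) - u 0 :=
      Finset.sum_range_sub u (n + 1)
    have hu0 : u 0 = 0 := by
      simp only [u]
      have : ∏ j ∈ Ico 0 (n + 1), (1 - q ^ (2 * j)) = 0 :=
        Finset.prod_eq_zero (i := 0) (by simp) (by simp)
      rw [this]
      simp
    have step : ∀ s ∈ range (n + 1),
        (∏ i ∈ range s, (1 - q ^ (2 * i + 1))) *
          (∏ j ∈ Ico (s + 1) (n + 1 + 1), (1 - q ^ (2 * j))) * q ^ (s * (2 * (n + 1) + 1)) =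
        (1 - q ^ (2 * n + 1)) * ((∏ i ∈ range s, (1 - q ^ (2 * i + 1))) *
          (∏ j ∈ Ico (s + 1) (n + 1), (1 - q ^ (2 * j))) * q ^ (s * (2 * n + 1))) +
        (u (s + 1) - u s) := by
      intro s hs
      have hs' : s < n + 1 := mem_range.mp hs
      simp only [u]
      rw [Finset.prod_Ico_succ_top (by omega : s + 1 ≤ n + 1),
        Finset.prod_eq_prod_Ico_succ_bot hs', prod_range_succ]
      ring
    rw [Finset.sum_congr rfl step, sum_add_distrib, ← mul_sum, tel, hu0, sum_range_succ, ih,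
      sum_range_succ, prod_range_succ]
    simp only [u, Ico_self, prod_empty, prod_range_succ]
    ring

theorem gauss_dvd {A : Type*} [CommRing A] (q : A) (n : ℕ) :
    q ^ n ∣ ∏ i ∈ range n, (1 - q ^ (2 * i + 2)) -
      (∏ i ∈ range n, (1 - q ^ (2 * i + 1))) *
        ∑ i ∈ range n, (q ^ (i * (2 * i + 1)) + q ^ ((i + 1) * (2 * i + 1))) := by
  rcases Nat.eq_zero_or_pos n with rfl | hn
  · simp
  obtain ⟨m, rfl⟩ : ∃ m, n = m + 1 := ⟨n - 1, by omega⟩
  rw [← shanks, sum_range_succ']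
  have : ∏ j ∈ Ico (0 + 1) (m + 1 + 1), (1 - q ^ (2 * j)) =
      ∏ i ∈ range (m + 1), (1 - q ^ (2 * i + 2)) := by
    rw [Finset.prod_Ico_eq_prod_range]
    apply Finset.prod_congr rfl
    intro i _
    congr 2
    ring
  rw [this]
  simp only [range_zero, prod_empty, one_mul, zero_mul, pow_zero, mul_one]
  rw [sub_add_cancel_right]
  apply Dvd.dvd.neg_right
  apply Finset.dvd_sum
  intro s _
  apply Dvd.dvd.mul_left
  apply pow_dvd_pow
  nlinarith

theorem prod_range_two_mul' {A : Type*} [CommMonoid A] (f : ℕ → A) (M : ℕ) :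
    ∏ i ∈ range (2 * M), f i = ∏ i ∈ range M, (f (2 * i) * f (2 * i + 1)) := by
  induction M with
  | zero => simp
  | succ M ih =>
    rw [show 2 * (M + 1) = 2 * M + 1 + 1 by ring, prod_range_succ, prod_range_succ, ih,
      prod_range_succ, mul_assoc]

end Pool.Agent.Work.MP_058057_co
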